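import Mathlib
import Pool.Agent.Helper240.ZFM.Q5b

set_option autoImplicit false

/-! `D^{(1)}(X) = A^{(1)}(X)` for pointwise regular, polynomially convex compact plane sets with
connected dense interior. -/

namespace Pool.Agent.Results.MP_8e12aa_an.NoSeparation

open Set Filter Topology

/-- `f ∈ D^{(1)}(X)`: `f` is continuous on `X` and has a complex derivative (relative to `X`) at
each point of `X`, which is a continuous function on `X`. -/
def InD1 (X : Set ℂ) (f : ℂ → ℂ) : Prop :=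
  ContinuousOn f X ∧ ∃ g : ℂ → ℂ, ContinuousOn g X ∧ ∀ a ∈ X, HasDerivWithinAt f (g a) X a

/-- `f ∈ A^{(1)}(X)`: `f` is continuous on `X`, holomorphic in the interior, and its derivative
in the interior extends continuously to `X`. -/
def InA1 (X : Set ℂ) (f : ℂ → ℂ) : Prop :=
  ContinuousOn f X ∧ DifferentiableOn ℂ f (interior X) ∧
    ∃ g : ℂ → ℂ, ContinuousOn g X ∧ ∀ z ∈ interior X, deriv f z = g z

/-- `z` and `w` are joined in `X` by a rectifiable path of length at most `L`. -/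
def Joined (X : Set ℂ) (z w : ℂ) (L : ℝ) : Prop :=
  ∃ γ : ℝ → ℂ, ContinuousOn γ (Icc 0 1) ∧ γ 0 = z ∧ γ 1 = w ∧ MapsTo γ (Icc 0 1) X ∧
    eVariationOn γ (Icc 0 1) ≤ ENNReal.ofReal L

/-- Uniform regularity. -/
def UniformlyRegular (X : Set ℂ) : Prop :=
  ∃ k > 0, ∀ z ∈ X, ∀ w ∈ X, Joined X z w (k * ‖z - w‖)

/-- Pointwise regularity. -/
def PointwiseRegular (X : Set ℂ) : Prop :=
  ∀ z ∈ X, ∃ k > 0, ∀ w ∈ X, Joined X z w (k * ‖z - w‖)

/-- The increment of a polynomial along a rectifiable path. -/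
lemma path_bound (Q : Polynomial ℂ) (γ : ℝ → ℂ) (hγ : ContinuousOn γ (Icc 0 1)) (M L : ℝ)
    (hM0 : 0 ≤ M) (hM : ∀ t ∈ Icc (0 : ℝ) 1, ‖Q.derivative.eval (γ t)‖ ≤ M) (hL0 : 0 ≤ L)
    (hL : eVariationOn γ (Icc 0 1) ≤ ENNReal.ofReal L) :
    ‖Q.eval (γ 1) - Q.eval (γ 0)‖ ≤ M * L := by
  have key : ∀ ε > 0, ‖Q.eval (γ 1) - Q.eval (γ 0)‖ ≤ (M + ε) * L := by
    intro ε hε
    -- local Lipschitz bounds
    have hloc : ∀ t ∈ Icc (0 : ℝ) 1, ∃ U : Set ℂ, IsOpen U ∧ γ t ∈ U ∧ ∀ y ∈ U, ∀ y' ∈ U,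
        ‖Q.eval y - Q.eval y'‖ ≤ (M + ε) * ‖y - y'‖ := by
      intro t ht
      have h1 : HasStrictDerivAt (fun z => Q.eval z) (Q.derivative.eval (γ t)) (γ t) :=
        Q.hasStrictDerivAt (γ t)
      have h2 := h1.isLittleO
      rw [Asymptotics.isLittleO_iff] at h2
      have h3 := h2 hε
      rw [nhds_prod_eq] at h3
      obtain ⟨U, hU, h4⟩ := Filter.mem_prod_same_iff.1 h3
      obtain ⟨U', hU'U, hU'o, hU't⟩ := mem_nhds_iff.1 hU
      refine ⟨U', hU'o, hU't, fun y hy y' hy' => ?_⟩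
      have h5 : ‖Q.eval y - Q.eval y' -
          (ContinuousLinearMap.toSpanSingleton ℂ (Q.derivative.eval (γ t))) (y - y')‖ ≤
          ε * ‖y - y'‖ := h4 (show (y, y') ∈ U ×ˢ U from ⟨hU'U hy, hU'U hy'⟩)
      have h6 : ‖Q.eval y - Q.eval y'‖ ≤ ε * ‖y - y'‖ +
          ‖(ContinuousLinearMap.toSpanSingleton ℂ (Q.derivative.eval (γ t))) (y - y')‖ := by
        have := norm_add_le (Q.eval y - Q.eval y' -
          (ContinuousLinearMap.toSpanSingleton ℂ (Q.derivative.eval (γ t))) (y - y'))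
          ((ContinuousLinearMap.toSpanSingleton ℂ (Q.derivative.eval (γ t))) (y - y'))
        rw [sub_add_cancel] at this
        exact this.trans (add_le_add h5 le_rfl)
      refine h6.trans ?_
      rw [ContinuousLinearMap.toSpanSingleton_apply, norm_smul]
      have := mul_le_mul_of_nonneg_left (hM t ht) (norm_nonneg (y - y'))
      nlinarith
    choose! U hUo hUt hU using hloc
    -- Lebesgue number
    have hc : ∀ t ∈ Icc (0 : ℝ) 1, ∃ δ > 0, ∀ s ∈ Icc (0 : ℝ) 1, |s - t| < δ → γ s ∈ U t := by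
      intro t ht
      have h1 := (hγ t ht).preimage_mem_nhdsWithin ((hUo t ht).mem_nhds (hUt t ht))
      obtain ⟨δ, hδ, h2⟩ := Metric.mem_nhdsWithin_iff.1 h1
      exact ⟨δ, hδ, fun s hs hlt => h2 ⟨by rwa [Metric.mem_ball, Real.dist_eq], hs⟩⟩
    choose! δ hδ0 hδ using hc
    obtain ⟨η, hη, hηb⟩ := lebesgue_number_lemma_of_metric (s := Icc (0 : ℝ) 1)
      (c := fun t : Icc (0 : ℝ) 1 => Metric.ball (t : ℝ) (δ t)) isCompact_Icc
      (fun t => Metric.isOpen_ball)
      (fun t ht => mem_iUnion.2 ⟨⟨t, ht⟩, Metric.mem_ball_self (hδ0 t ht)⟩)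
    obtain ⟨n, hn⟩ := exists_nat_one_div_lt hη
    have hn0 : (0 : ℝ) < (n : ℝ) + 1 := by positivity
    let u : ℕ → ℝ := fun i => ((min i (n + 1) : ℕ) : ℝ) / ((n : ℝ) + 1)
    have hu : Monotone u := by
      intro i j hij
      have : ((min i (n + 1) : ℕ) : ℝ) ≤ ((min j (n + 1) : ℕ) : ℝ) := by
        exact_mod_cast min_le_min_right _ hij
      simp only [u]
      gcongr
    have huI : ∀ i, u i ∈ Icc (0 : ℝ) 1 := by
      intro i
      refine ⟨by positivity, ?_⟩
      rw [div_le_one hn0]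
      exact_mod_cast min_le_right i (n + 1)
    have hu0 : u 0 = 0 := by
      simp only [u, Nat.zero_min, Nat.cast_zero, zero_div]
    have hun : u (n + 1) = 1 := by
      simp only [u, min_self]
      push_cast
      exact div_self hn0.ne'
    have hstep : ∀ i ∈ Finset.range (n + 1), ‖Q.eval (γ (u (i + 1))) - Q.eval (γ (u i))‖ ≤
        (M + ε) * ‖γ (u (i + 1)) - γ (u i)‖ := by
      intro i hi
      have hi' := Finset.mem_range.1 hi
      obtain ⟨⟨t, ht⟩, hb⟩ := hηb (u i) (huI i)
      have e1 : γ (u i) ∈ U t := hδ t ht _ (huI i) (hb (Metric.mem_ball_self hη))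
      have e2 : γ (u (i + 1)) ∈ U t := by
        refine hδ t ht _ (huI _) ?_
        have : u (i + 1) ∈ Metric.ball (u i) η := by
          rw [Metric.mem_ball, Real.dist_eq]
          have a1 : min (i + 1) (n + 1) = i + 1 := min_eq_left hi'
          have a2 : min i (n + 1) = i := min_eq_left hi'.le
          simp only [u, a1, a2]
          push_cast
          rw [← sub_div, add_sub_cancel_left, abs_of_pos (by positivity)]
          exact hn
        exact hb this
      exact hU t ht _ e2 _ e1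
    have hsum : ∑ i ∈ Finset.range (n + 1), ‖γ (u (i + 1)) - γ (u i)‖ ≤ L := by
      have h1 := eVariationOn.sum_le (f := γ) (s := Icc (0 : ℝ) 1) (n := n + 1) hu huI
      have h2 := h1.trans hL
      have h3 : ∑ i ∈ Finset.range (n + 1), edist (γ (u (i + 1))) (γ (u i)) =
          ENNReal.ofReal (∑ i ∈ Finset.range (n + 1), ‖γ (u (i + 1)) - γ (u i)‖) := by
        rw [ENNReal.ofReal_sum_of_nonneg fun _ _ => norm_nonneg _]
        exact Finset.sum_congr rfl fun i _ => by rw [edist_dist, dist_eq_norm]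
      rw [h3, ENNReal.ofReal_le_ofReal_iff hL0] at h2
      exact h2
    calc ‖Q.eval (γ 1) - Q.eval (γ 0)‖
        = ‖∑ i ∈ Finset.range (n + 1), (Q.eval (γ (u (i + 1))) - Q.eval (γ (u i)))‖ := by
          rw [Finset.sum_range_sub (fun i => Q.eval (γ (u i))), hu0, hun]
      _ ≤ ∑ i ∈ Finset.range (n + 1), (M + ε) * ‖γ (u (i + 1)) - γ (u i)‖ :=
          (norm_sum_le _ _).trans (Finset.sum_le_sum hstep)
      _ = (M + ε) * ∑ i ∈ Finset.range (n + 1), ‖γ (u (i + 1)) - γ (u i)‖ := by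
          rw [Finset.mul_sum]
      _ ≤ (M + ε) * L := mul_le_mul_of_nonneg_left hsum (by positivity)
  refine le_of_forall_pos_le_add fun ε hε => ?_
  have h1 := key (ε / (L + 1)) (by positivity)
  refine h1.trans ?_
  rw [add_mul]
  have : ε / (L + 1) * L ≤ ε := by
    rw [div_mul_eq_mul_div, div_le_iff₀ (by positivity)]
    nlinarith
  linarith

/-- The increment of a polynomial, compared with its derivative at the base point. -/
lemma joined_bound (X : Set ℂ) (Q : Polynomial ℂ) (c : ℂ) (z w : ℂ) (L M : ℝ) (hL : 0 ≤ L)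
    (hj : Joined X z w L) (hM0 : 0 ≤ M)
    (hM : ∀ x ∈ X, ‖x - z‖ ≤ L → ‖Q.derivative.eval x - c‖ ≤ M) :
    ‖Q.eval w - Q.eval z - c * (w - z)‖ ≤ M * L := by
  obtain ⟨γ, hγ, h0, h1, hX, hv⟩ := hj
  have hnear : ∀ t ∈ Icc (0 : ℝ) 1, ‖γ t - z‖ ≤ L := by
    intro t ht
    have h2 := (eVariationOn.edist_le γ ht (⟨le_rfl, zero_le_one⟩ : (0 : ℝ) ∈ Icc (0 : ℝ) 1)).trans hv
    rw [h0, edist_dist, dist_eq_norm, ENNReal.ofReal_le_ofReal_iff hL] at h2
    exact h2
  have h3 := path_bound (Q - Polynomial.C c * Polynomial.X) γ hγ M L hM0 (by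
    intro t ht
    simp only [Polynomial.derivative_sub, Polynomial.derivative_C_mul, Polynomial.derivative_X,
      Polynomial.eval_sub, Polynomial.eval_mul, Polynomial.eval_C, Polynomial.eval_one, mul_one]
    exact hM _ (hX ht) (hnear t ht)) hL hv
  rw [h0, h1] at h3
  simp only [Polynomial.eval_sub, Polynomial.eval_mul, Polynomial.eval_C, Polynomial.eval_X] at h3
  have e : Q.eval w - Q.eval z - c * (w - z) = Q.eval w - c * w - (Q.eval z - c * z) := by ring
  rw [e]
  exact h3

/-- An antiderivative of a polynomial. -/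
lemma exists_primitive (p : Polynomial ℂ) (z v : ℂ) :
    ∃ Q : Polynomial ℂ, Q.derivative = p ∧ Q.eval z = v := by
  obtain ⟨Q, hQ⟩ : ∃ Q : Polynomial ℂ, Q.derivative = p := by
    refine ⟨p.sum fun n a => Polynomial.C (a / (n + 1)) * Polynomial.X ^ (n + 1), ?_⟩
    rw [Polynomial.sum_def, Polynomial.derivative_sum]
    conv_rhs => rw [← Polynomial.sum_C_mul_X_pow_eq p, Polynomial.sum_def]
    refine Finset.sum_congr rfl fun n _ => ?_
    rw [Polynomial.derivative_C_mul_X_pow]
    congr 2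
    push_cast
    have : (n : ℂ) + 1 ≠ 0 := by exact_mod_cast Nat.succ_ne_zero n
    field_simp
  refine ⟨Q + Polynomial.C (v - Q.eval z), ?_, ?_⟩
  · rw [Polynomial.derivative_add, Polynomial.derivative_C, add_zero, hQ]
  · simp

/-- The main inclusion. -/
lemma inD1_of_inA1 (X : Set ℂ) (hX : IsCompact X) (hreg : PointwiseRegular X)
    (hconv : IsConnected Xᶜ) (hint : IsConnected (interior X)) (hdense : X ⊆ closure (interior X))
    (f : ℂ → ℂ) (hf : InA1 X f) : InD1 X f := by
  obtain ⟨hfc, hfd, g, hg, hfg⟩ := hf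
  obtain ⟨z₀, hz₀⟩ := hint.nonempty
  have hz₀X : z₀ ∈ X := interior_subset hz₀
  have hgd : DifferentiableOn ℂ g (interior X) := by
    have : DifferentiableOn ℂ (deriv f) (interior X) := hfd.deriv isOpen_interior
    exact this.congr fun z hz => (hfg z hz).symm
  -- polynomial approximation of the derivative
  have happ : ∀ n : ℕ, ∃ p : Polynomial ℂ, ∀ z ∈ X, ‖p.eval z - g z‖ < 1 / ((n : ℝ) + 1) := fun n =>
    ZFM.J_q5b.mergelyan hX hconv g hg hgd _ (by positivity)
  choose p hp using happ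
  choose Q hQ hQ0 using fun n => exists_primitive (p n) z₀ (f z₀)
  -- comparison of the primitives at different indices
  have hcmp : ∀ n m, ∀ z ∈ X, ∀ w ∈ X, ∀ L, 0 ≤ L → Joined X z w L →
      ‖((Q n).eval w - (Q m).eval w) - ((Q n).eval z - (Q m).eval z)‖ ≤
        (1 / ((n : ℝ) + 1) + 1 / ((m : ℝ) + 1)) * L := by
    intro n m z _ w _ L hL hj
    have h1 := joined_bound X (Q n - Q m) 0 z w L (1 / ((n : ℝ) + 1) + 1 / ((m : ℝ) + 1)) hL hj
      (by positivity) (by
        intro x hx _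
        rw [sub_zero, Polynomial.derivative_sub, hQ, hQ, Polynomial.eval_sub]
        have e : (p n).eval x - (p m).eval x = ((p n).eval x - g x) - ((p m).eval x - g x) := by
          ring
        rw [e]
        exact (norm_sub_le _ _).trans (add_le_add (hp n x hx).le (hp m x hx).le))
    rw [zero_mul, sub_zero, Polynomial.eval_sub, Polynomial.eval_sub] at h1
    exact h1
  -- pointwise limit
  obtain ⟨k₀, hk₀, hj₀⟩ := hreg z₀ hz₀X
  have hcau : ∀ z ∈ X, CauchySeq fun n => (Q n).eval z := by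
    intro z hz
    have hlim : Tendsto (fun n : ℕ => (1 / ((n : ℝ) + 1) + 1 / ((n : ℝ) + 1)) * (k₀ * ‖z₀ - z‖))
        atTop (𝓝 0) := by
      have h1 := (tendsto_one_div_add_atTop_nhds_zero_nat (𝕜 := ℝ)).add
        (tendsto_one_div_add_atTop_nhds_zero_nat (𝕜 := ℝ))
      simpa using h1.mul_const (k₀ * ‖z₀ - z‖)
    refine cauchySeq_of_le_tendsto_0 _ (fun n m N hn hm => ?_) hlim
    rw [dist_eq_norm]
    have h1 := hcmp n m z₀ hz₀X z hz _ (by positivity) (hj₀ z hz)
    rw [hQ0, hQ0, sub_self, sub_zero] at h1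
    refine h1.trans ?_
    have hn' : (N : ℝ) ≤ n := by exact_mod_cast hn
    have hm' : (N : ℝ) ≤ m := by exact_mod_cast hm
    gcongr
  have hlim : ∀ z, ∃ v, z ∈ X → Tendsto (fun n => (Q n).eval z) atTop (𝓝 v) := by
    intro z
    by_cases hz : z ∈ X
    · obtain ⟨v, hv⟩ := cauchySeq_tendsto_of_complete (hcau z hz)
      exact ⟨v, fun _ => hv⟩
    · exact ⟨0, fun h => absurd h hz⟩
  choose h hh using hlim
  have hlim0 : Tendsto (fun n : ℕ => 1 / ((n : ℝ) + 1)) atTop (𝓝 0) :=
    tendsto_one_div_add_atTop_nhds_zero_nat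
  have hp' : ∀ z ∈ X, Tendsto (fun n => (p n).eval z) atTop (𝓝 (g z)) := by
    intro z hz
    rw [tendsto_iff_norm_sub_tendsto_zero]
    exact squeeze_zero (fun _ => norm_nonneg _) (fun n => (hp n z hz).le) hlim0
  -- the limit has derivative `g` at each point of `X`
  have hderiv : ∀ a ∈ X, HasDerivWithinAt h (g a) X a := by
    intro a ha
    obtain ⟨k, hk, hj⟩ := hreg a ha
    rw [hasDerivWithinAt_iff_isLittleO, Asymptotics.isLittleO_iff]
    intro ε hε
    obtain ⟨δ, hδ, hδ'⟩ := Metric.continuousWithinAt_iff.1 (hg a ha) (ε / (2 * k)) (by positivity)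
    have hnear : ∀ᶠ w in 𝓝[X] a, ‖w - a‖ < δ / (k + 1) := by
      have : ∀ᶠ w in 𝓝 a, ‖w - a‖ < δ / (k + 1) := by
        have := Metric.ball_mem_nhds a (show 0 < δ / (k + 1) by positivity)
        filter_upwards [this] with w hw
        rwa [Metric.mem_ball, dist_eq_norm] at hw
      exact this.filter_mono nhdsWithin_le_nhds
    filter_upwards [hnear, self_mem_nhdsWithin] with w hw hwX
    -- for each `n`
    have hL0 : 0 ≤ k * ‖a - w‖ := by positivity
    have hLδ : k * ‖a - w‖ < δ := by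
      rw [norm_sub_rev]
      calc k * ‖w - a‖ ≤ (k + 1) * ‖w - a‖ := by gcongr; linarith
        _ < (k + 1) * (δ / (k + 1)) := by gcongr
        _ = δ := by field_simp
    have hn : ∀ n : ℕ, ‖(Q n).eval w - (Q n).eval a - g a * (w - a)‖ ≤
        (ε / (2 * k) + 1 / ((n : ℝ) + 1)) * (k * ‖a - w‖) := by
      intro n
      refine joined_bound X (Q n) (g a) a w _ _ hL0 (hj w hwX) (by positivity) fun x hx hxa => ?_
      rw [hQ]
      have h1 : ‖g x - g a‖ < ε / (2 * k) := by
        have := hδ' hx (by rw [dist_eq_norm]; exact hxa.trans_lt hLδ)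
        rwa [dist_eq_norm] at this
      calc ‖(p n).eval x - g a‖ = ‖(g x - g a) + ((p n).eval x - g x)‖ := by congr 1; ring
        _ ≤ _ := norm_add_le _ _
        _ ≤ _ := add_le_add h1.le (hp n x hx).le
    have hlimn : Tendsto (fun n : ℕ => (ε / (2 * k) + 1 / ((n : ℝ) + 1)) * (k * ‖a - w‖)) atTop
        (𝓝 ((ε / (2 * k) + 0) * (k * ‖a - w‖))) := (hlim0.const_add _).mul_const _
    have hlimQ : Tendsto (fun n => ‖(Q n).eval w - (Q n).eval a - g a * (w - a)‖) atTop
        (𝓝 ‖h w - h a - g a * (w - a)‖) :=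
      (((hh w hwX).sub (hh a ha)).sub_const _).norm
    have h2 := le_of_tendsto_of_tendsto' hlimQ hlimn hn
    rw [smul_eq_mul, mul_comm (w - a)]
    refine h2.trans ?_
    rw [add_zero, norm_sub_rev a w]
    have : ε / (2 * k) * (k * ‖w - a‖) = ε / 2 * ‖w - a‖ := by field_simp
    rw [this]
    have := norm_nonneg (w - a)
    nlinarith
  -- `h = f` on `X`
  have hhc : ContinuousOn h X := fun a ha => (hderiv a ha).continuousWithinAt
  have hdiff : ∀ z ∈ interior X, HasDerivAt (fun z => h z - f z) 0 z := by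
    intro z hz
    have h1 : HasDerivAt h (g z) z :=
      (hderiv z (interior_subset hz)).hasDerivAt (mem_interior_iff_mem_nhds.1 hz)
    have h2 : HasDerivAt f (g z) z := by
      rw [← hfg z hz]
      exact (hfd.differentiableAt (isOpen_interior.mem_nhds hz)).hasDerivAt
    have := h1.sub h2
    rwa [sub_self] at this
  have hconst : ∀ z ∈ interior X, h z - f z = h z₀ - f z₀ := by
    intro z hz
    exact isOpen_interior.is_const_of_deriv_eq_zero hint.isPreconnected
      (fun x hx => (hdiff x hx).differentiableAt.differentiableWithinAt)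
      (fun x hx => (hdiff x hx).deriv) hz hz₀
  have hz0 : h z₀ = f z₀ := by
    have h1 := hh z₀ hz₀X
    simp only [hQ0] at h1
    exact (tendsto_nhds_unique h1 tendsto_const_nhds)
  have heq : EqOn h f (interior X) := by
    intro z hz
    have := hconst z hz
    rw [hz0, sub_self] at this
    exact sub_eq_zero.1 this
  have heqX : EqOn h f X := by
    intro z hz
    have hz' := hdense hz
    have hne : (𝓝[interior X] z).NeBot := mem_closure_iff_nhdsWithin_neBot.1 hz'
    have h1 : Tendsto h (𝓝[interior X] z) (𝓝 (h z)) :=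
      (hhc z hz).mono_left (nhdsWithin_mono _ interior_subset)
    have h2 : Tendsto f (𝓝[interior X] z) (𝓝 (f z)) :=
      (hfc z hz).mono_left (nhdsWithin_mono _ interior_subset)
    refine tendsto_nhds_unique (h1.congr' ?_) h2
    filter_upwards [self_mem_nhdsWithin] with x hx using heq hx
  refine ⟨hfc, g, hg, fun a ha => ?_⟩
  exact (hderiv a ha).congr (fun x hx => (heqX hx).symm) (heqX ha).symm

/-- **`D^{(1)}(X) = A^{(1)}(X)`** for every pointwise regular (in particular, every uniformly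
regular), polynomially convex compact plane set `X` with connected dense interior. -/
theorem result :
    (∀ X : Set ℂ, UniformlyRegular X → PointwiseRegular X) ∧
    ∀ X : Set ℂ, IsCompact X → PointwiseRegular X → IsConnected Xᶜ → IsConnected (interior X) →
      X ⊆ closure (interior X) → ∀ f : ℂ → ℂ, InD1 X f ↔ InA1 X f := by
  refine ⟨fun X ⟨k, hk, h⟩ z hz => ⟨k, hk, fun w hw => h z hz w hw⟩, ?_⟩
  intro X hX hreg hconv hint hdense f
  refine ⟨?_, inD1_of_inA1 X hX hreg hconv hint hdense f⟩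
  rintro ⟨hfc, g, hg, hd⟩
  have h1 : ∀ z ∈ interior X, HasDerivAt f (g z) z := fun z hz =>
    (hd z (interior_subset hz)).hasDerivAt (mem_interior_iff_mem_nhds.1 hz)
  exact ⟨hfc, fun z hz => (h1 z hz).differentiableAt.differentiableWithinAt, g, hg,
    fun z hz => (h1 z hz).deriv⟩

end Pool.Agent.Results.MP_8e12aa_an.NoSeparation
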